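import Pool.Agent.Q45.GM.StmM
import Pool.Agent.Q45.GM.J.Red

/-!
# Project GM (helper45), jobs LIN9 and LIN8
-/

set_option autoImplicit false
set_option linter.all false

open scoped Classical
open Polynomial

namespace Pool.Agent.Q151.GM

open Module.Basis in
/-- the characteristic polynomial is the product of those of the restriction and of the quotient -/
theorem charpoly_mul {R V : Type*} [Field R] [AddCommGroup V]
    [Module R V] [Module.Finite R V] (W : Submodule R V) (e : V →ₗ[R] V) (he : W ≤ W.comap e) :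
    e.charpoly = (e.restrict he).charpoly * (W.mapQ W e he).charpoly := by
  let m := Module.Free.ChooseBasisIndex R W
  let bW : Module.Basis m R W := Module.Free.chooseBasis R W
  let n := Module.Free.ChooseBasisIndex R (V ⧸ W)
  let bQ : Module.Basis n R (V ⧸ W) := Module.Free.chooseBasis R (V ⧸ W)
  let b := sumQuot bW bQ
  let A : Matrix m m R := LinearMap.toMatrix bW bW (e.restrict he)
  let B : Matrix m n R := Matrix.of fun i l ↦
    ((sumQuot bW bQ).repr (e ((sumQuot bW bQ) (Sum.inr l)))) (Sum.inl i)
  let D : Matrix n n R := LinearMap.toMatrix bQ bQ (W.mapQ W e he)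
  suffices LinearMap.toMatrix b b e = Matrix.fromBlocks A B 0 D by
    rw [← LinearMap.charpoly_toMatrix e b, this, ← LinearMap.charpoly_toMatrix _ bW,
      ← LinearMap.charpoly_toMatrix _ bQ, Matrix.charpoly_fromBlocks_zero₂₁]
  ext u v
  cases u with
  | inl i =>
    cases v with
    | inl k =>
      simp only [b, sumQuot_inl, Matrix.fromBlocks_apply₁₁, A, LinearMap.toMatrix_apply]
      apply sumQuot_repr_inl_of_mem
    | inr l => simp [b, LinearMap.toMatrix_apply, Matrix.fromBlocks_apply₁₂, B]
  | inr j =>
    cases v with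
    | inl k =>
      suffices W.mkQ (e (bW k)) = 0 by simp [LinearMap.toMatrix_apply, b, this]
      rw [← LinearMap.mem_ker, Submodule.ker_mkQ]
      exact he (Submodule.coe_mem (bW k))
    | inr l =>
      simp only [LinearMap.toMatrix_apply, sumQuot_repr_inr,
        Matrix.fromBlocks_apply₂₂, b, D]
      rw [← sumQuot_inr bW bQ l, W.mapQ_apply]
      simp

/-- JOB GM-LIN9 -/
theorem lin9 : Pool.Agent.Q45.GM.Lin9 := by
  intro K V _ _ _ _ E U h
  exact ⟨_, charpoly_mul U E h⟩

open Pool.Agent.Q45.GM.JRed in
/-- JOB GM-LIN8 -/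
theorem lin8 : Pool.Agent.Q45.GM.Lin8 := by
  intro p _ M _ _ _ _ φ V _ _ _ E κ h1 h2
  let b := Module.Free.chooseBasis ℤ_[p] M
  have hκ : ∀ m m' : M, red b m = red b m' → κ m = κ m' := by
    intro m m' h
    obtain ⟨x, hx⟩ := red_eq_zero b (m := m - m') (by rw [red_sub, h, sub_self])
    have h3 : κ (m - m') = 0 := (h1 _).2 ⟨x, hx⟩
    rw [map_sub] at h3
    exact sub_eq_zero.mp h3
  let e0 : (Module.Free.ChooseBasisIndex ℤ_[p] M → ZMod p) →+ V :=
    { toFun := fun v => κ (sec b v)
      map_zero' := by
        rw [← map_zero κ]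
        apply hκ
        rw [red_sec]
        funext i; simp [red]
      map_add' := by
        intro v w
        rw [← map_add]
        apply hκ
        rw [red_sec, red_add, red_sec, red_sec] }
  let e := e0.toZModLinearMap p
  have he : ∀ v, e v = κ (sec b v) := fun v => rfl
  have hinj : Function.Injective e := by
    rw [← LinearMap.ker_eq_bot, LinearMap.ker_eq_bot']
    intro v hv
    obtain ⟨m', hm'⟩ := (h1 _).1 hv
    rw [← red_sec b v, hm', red_p]
  have hE : ∀ v, E (e v) = e (redEnd b φ v) := by
    intro v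
    rw [he, he, ← h2]
    apply hκ
    rw [red_map, red_sec, red_sec]
  have hU : ∀ u ∈ LinearMap.range e, E u ∈ LinearMap.range e := by
    rintro u ⟨v, rfl⟩
    exact ⟨redEnd b φ v, (hE v).symm⟩
  have h3 := lin9 (ZMod p) V E (LinearMap.range e) hU
  have h4 : (E.restrict hU).charpoly = (redEnd b φ).charpoly := by
    have h5 : (LinearEquiv.ofInjective e hinj).conj (redEnd b φ) = E.restrict hU := by
      apply LinearMap.ext
      rintro ⟨x, v, rfl⟩
      rw [LinearEquiv.conj_apply]
      have h6 : (LinearEquiv.ofInjective e hinj).symm ⟨e v, ⟨v, rfl⟩⟩ = v := by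
        rw [LinearEquiv.symm_apply_eq]
        rfl
      change (LinearEquiv.ofInjective e hinj) (redEnd b φ ((LinearEquiv.ofInjective e hinj).symm
        ⟨e v, ⟨v, rfl⟩⟩)) = _
      rw [h6]
      apply Subtype.ext
      exact (hE v).symm
    rw [← h5, LinearEquiv.charpoly_conj]
  rw [h4, charpoly_red] at h3
  exact h3

end Pool.Agent.Q151.GM
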